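import Pool.Agent.Helper20.NS5.Goals
import Pool.Agent.Helper86.Gen3.GOOD

set_option autoImplicit false

namespace Pool.Agent.Helper14.NS5

open Pool.Agent.Helper20.NS5 Pool.Agent.Helper65.LinSpace Pool.Agent.Helper78.Avg Finset
open Pool.Agent.Helper65.Gen3 (pP hs)
open Pool.Agent.Helper86.Gen3 (gg)

theorem Yv_nonneg {β : Type} (F : ℕ → β) (n k : ℕ) (g : ℕ → ℤ) : 0 ≤ Yv F n k g := by
  unfold Yv
  refine sum_nonneg fun z _ => mul_nonneg ((even_two_mul k).pow_nonneg _) (by positivity)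

theorem Mv_pos {β : Type} (F : ℕ → β) (n : ℕ) : 0 < Mv F n := by
  unfold Mv
  have h0 : 0 ∈ range (2 ^ n) := mem_range.2 (by positivity)
  exact sum_pos (fun z _ => by positivity) ⟨0, h0⟩

theorem key {n k c : ℕ} (hcn : c ≤ 2 ^ n) :
    c ^ k * 2 ^ ((k + 1) * (n - Nat.log 2 c)) ≤ 2 ^ (k * (n + 1)) * 2 ^ (n - Nat.log 2 c) := by
  have hl : Nat.log 2 c ≤ n := by
    calc Nat.log 2 c ≤ Nat.log 2 (2 ^ n) := Nat.log_mono_right hcn
      _ = n := Nat.log_pow (by norm_num) n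
  have h1 : c ≤ 2 ^ (Nat.log 2 c + 1) := (Nat.lt_pow_succ_log_self (by norm_num) c).le
  obtain ⟨d, hd⟩ := Nat.exists_eq_add_of_le hl
  have e1 : n - Nat.log 2 c = d := by omega
  rw [e1]
  calc c ^ k * 2 ^ ((k + 1) * d) ≤ (2 ^ (Nat.log 2 c + 1)) ^ k * 2 ^ ((k + 1) * d) :=
        Nat.mul_le_mul_right _ (Nat.pow_le_pow_left h1 k)
    _ = 2 ^ (k * (n + 1)) * 2 ^ d := by
        rw [← pow_mul, ← pow_add, ← pow_add]
        congr 1
        conv_rhs => rw [hd]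
        ring

theorem sumY (h : MOM_stmt) {β : Type} {k n p : ℕ} (hk : 0 < k) (hp : p.Prime) (hp2 : 2 < p)
    (hn : 2 ^ n < p) (F : ℕ → β) :
    ∑ s ∈ range (p ^ (2 * k)), Yv F n k (fun z => (-1) ^ hs p (2 * k) s z) ≤
      (2 * k) ^ (2 * k + 1) * p ^ (2 * k) * 2 ^ (k * (n + 1)) * (Mv F n : ℤ) := by
  classical
  unfold Yv
  rw [sum_comm]
  have hM : (Mv F n : ℤ) = ∑ z ∈ range (2 ^ n), (2 : ℤ) ^ (n - Nat.log 2 (cs F n z)) := by
    unfold Mv
    push_cast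
    rfl
  rw [hM, mul_sum]
  refine sum_le_sum fun z hz => ?_
  rw [← sum_mul]
  have h1 : ∑ s ∈ range (p ^ (2 * k)), dev F n (fun z => (-1) ^ hs p (2 * k) s z) z ^ (2 * k) ≤
      (2 * k) ^ (2 * k + 1) * p ^ (2 * k) * (cs F n z : ℤ) ^ k := by
    have h2 := h k n p hk hp hp2 hn ((range (2 ^ n)).filter fun z' => F z' = F z)
      (filter_subset _ _)
    unfold dev cs
    convert h2 using 3
  have hc : 0 < cs F n z := by
    unfold cs
    exact card_pos.2 ⟨z, mem_filter.2 ⟨hz, rfl⟩⟩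
  have hcn : cs F n z ≤ 2 ^ n := by
    unfold cs
    refine (card_filter_le _ _).trans ?_
    rw [card_range]
  have h3 : (cs F n z : ℤ) ^ k * 2 ^ ((k + 1) * (n - Nat.log 2 (cs F n z))) ≤
      2 ^ (k * (n + 1)) * 2 ^ (n - Nat.log 2 (cs F n z)) := by
    exact_mod_cast key hcn
  calc _ ≤ ((2 * k) ^ (2 * k + 1) * p ^ (2 * k) * (cs F n z : ℤ) ^ k) *
        2 ^ ((k + 1) * (n - Nat.log 2 (cs F n z))) := mul_le_mul_of_nonneg_right h1 (by positivity)
    _ = ((2 * k) ^ (2 * k + 1) * p ^ (2 * k)) * ((cs F n z : ℤ) ^ k *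
        2 ^ ((k + 1) * (n - Nat.log 2 (cs F n z)))) := by ring
    _ ≤ ((2 * k) ^ (2 * k + 1) * p ^ (2 * k)) *
        (2 ^ (k * (n + 1)) * 2 ^ (n - Nat.log 2 (cs F n z))) :=
        mul_le_mul_of_nonneg_left h3 (by positivity)
    _ = _ := by ring

/-- Markov's inequality -/
theorem card_bad (h : MOM_stmt) {β : Type} {k n p : ℕ} (hk : 0 < k) (hp : p.Prime) (hp2 : 2 < p)
    (hn : 2 ^ n < p) (F : ℕ → β) (W : ℕ) :
    ((range (p ^ (2 * k))).filter fun s =>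
      (W : ℤ) < Yv F n k (fun z => (-1) ^ hs p (2 * k) s z)).card * W ≤
      (2 * k) ^ (2 * k + 1) * p ^ (2 * k) * 2 ^ (k * (n + 1)) * Mv F n := by
  have h0 : ((((range (p ^ (2 * k))).filter fun s =>
      (W : ℤ) < Yv F n k (fun z => (-1) ^ hs p (2 * k) s z)).card * W : ℕ) : ℤ) ≤
      (2 * k) ^ (2 * k + 1) * p ^ (2 * k) * 2 ^ (k * (n + 1)) * (Mv F n : ℤ) := by
    refine le_trans ?_ (sumY h hk hp hp2 hn F)
    rw [Nat.cast_mul, ← nsmul_eq_mul]
    calc _ ≤ ∑ s ∈ (range (p ^ (2 * k))).filter fun s =>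
            (W : ℤ) < Yv F n k (fun z => (-1) ^ hs p (2 * k) s z),
          Yv F n k (fun z => (-1) ^ hs p (2 * k) s z) :=
          card_nsmul_le_sum _ _ _ fun s hs => (mem_filter.1 hs).2.le
      _ ≤ _ := sum_le_sum_of_subset_of_nonneg (filter_subset _ _) fun s _ _ => Yv_nonneg _ _ _ _
  exact_mod_cast h0

/-- GOOD -/
theorem good (h : MOM_stmt) : GOOD_stmt := by
  intro β k n p hk hp hp2 hn F
  by_contra hno
  push Not at hno
  let B : ℕ → ℕ → Finset ℕ := fun e a =>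
    (range (p ^ (2 * k))).filter fun s =>
      (thr k n e a (Mv (F e a) n) : ℤ) < Yv (F e a) n k (fun z => (-1) ^ hs p (2 * k) s z)
  have h1 : range (p ^ (2 * k)) ⊆ (range (n + 1)).biUnion fun e =>
      (range (2 ^ (k * n + 1))).biUnion fun a => B e a := by
    intro s hs
    obtain ⟨e, he, a, ha, hb⟩ := hno s (mem_range.1 hs)
    exact mem_biUnion.2 ⟨e, mem_range.2 he, mem_biUnion.2 ⟨a, mem_range.2 ha,
      mem_filter.2 ⟨hs, hb⟩⟩⟩
  have h2 : p ^ (2 * k) ≤ ∑ e ∈ range (n + 1), ∑ a ∈ range (2 ^ (k * n + 1)), (B e a).card := by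
    calc p ^ (2 * k) = (range (p ^ (2 * k))).card := (card_range _).symm
      _ ≤ _ := card_le_card h1
      _ ≤ ∑ e ∈ range (n + 1), ((range (2 ^ (k * n + 1))).biUnion fun a => B e a).card :=
        card_biUnion_le
      _ ≤ _ := sum_le_sum fun e _ => card_biUnion_le
  have hpp : (0 : ℝ) < (p : ℝ) ^ (2 * k) := by
    have : (0 : ℝ) < (p : ℝ) := by exact_mod_cast hp.pos
    positivity
  have hkk : (0 : ℝ) < (2 * (k : ℝ)) ^ (2 * k + 1) := by
    have : (0 : ℝ) < (k : ℝ) := by exact_mod_cast hk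
    positivity
  have h3 : ∀ e a, ((B e a).card : ℝ) ≤
      (p : ℝ) ^ (2 * k) / 16 * (1 / 4 ^ e) * (gg (Nat.log 2 a) / 2 ^ Nat.log 2 a) := by
    intro e a
    have hM : (0 : ℝ) < (Mv (F e a) n : ℝ) := by exact_mod_cast Mv_pos (F e a) n
    have h4 : ((B e a).card : ℝ) * (thr k n e a (Mv (F e a) n) : ℝ) ≤
        (2 * (k : ℝ)) ^ (2 * k + 1) * (p : ℝ) ^ (2 * k) * 2 ^ (k * (n + 1)) * Mv (F e a) n := by
      have h' : (B e a).card * thr k n e a (Mv (F e a) n) ≤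
          (2 * k) ^ (2 * k + 1) * p ^ (2 * k) * 2 ^ (k * (n + 1)) * Mv (F e a) n :=
        card_bad h hk hp hp2 hn (F e a) (thr k n e a (Mv (F e a) n))
      exact_mod_cast h'
    have h5 : (thr k n e a (Mv (F e a) n) : ℝ) = (2 * (k : ℝ)) ^ (2 * k + 1) *
        (Mv (F e a) n : ℝ) * ((Nat.log 2 a : ℝ) + 1) ^ 2 *
        (2 ^ (k * (n + 1)) * 2 ^ Nat.log 2 a * 4 ^ e * 16) := by
      have e1 : (2 : ℝ) ^ (k * (n + 1) + Nat.log 2 a + 2 * e + 4) =
          2 ^ (k * (n + 1)) * 2 ^ Nat.log 2 a * 4 ^ e * 16 := by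
        rw [pow_add, pow_add, pow_add, pow_mul (2 : ℝ) 2 e]
        norm_num
      unfold thr
      push_cast
      rw [e1]
    have h6 : (0 : ℝ) < (2 * (k : ℝ)) ^ (2 * k + 1) * (Mv (F e a) n : ℝ) *
        ((Nat.log 2 a : ℝ) + 1) ^ 2 *
        (2 ^ (k * (n + 1)) * 2 ^ Nat.log 2 a * 4 ^ e * 16) := by positivity
    rw [h5, ← le_div_iff₀ h6] at h4
    refine h4.trans (le_of_eq ?_)
    unfold gg
    field_simp
  have h4 : (p : ℝ) ^ (2 * k) ≤
      ∑ e ∈ range (n + 1), ∑ a ∈ range (2 ^ (k * n + 1)), ((B e a).card : ℝ) := by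
    exact_mod_cast h2
  have h5 : ∑ e ∈ range (n + 1), ∑ a ∈ range (2 ^ (k * n + 1)), ((B e a).card : ℝ) ≤
      (p : ℝ) ^ (2 * k) / 16 * (4 / 3) * 3 := by
    calc _ ≤ ∑ e ∈ range (n + 1), ∑ a ∈ range (2 ^ (k * n + 1)),
          (p : ℝ) ^ (2 * k) / 16 * (1 / 4 ^ e) * (gg (Nat.log 2 a) / 2 ^ Nat.log 2 a) :=
          sum_le_sum fun e _ => sum_le_sum fun a _ => h3 e a
      _ = (p : ℝ) ^ (2 * k) / 16 * (∑ e ∈ range (n + 1), (1 : ℝ) / 4 ^ e) *
          ∑ a ∈ range (2 ^ (k * n + 1)), (gg (Nat.log 2 a) / 2 ^ Nat.log 2 a) := by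
          rw [mul_sum (range (n + 1)) _ ((p : ℝ) ^ (2 * k) / 16), sum_mul_sum]
      _ ≤ (p : ℝ) ^ (2 * k) / 16 * (4 / 3) * 3 := by
          refine mul_le_mul (mul_le_mul_of_nonneg_left
            (Pool.Agent.Helper78.Avg.sum_four _) (by positivity)) ?_
            (sum_nonneg fun a _ => by
              unfold gg
              positivity) (by positivity)
          rw [Pool.Agent.Helper78.Avg.sum_adv gg (k * n + 1)]
          have h7 := Pool.Agent.Helper78.Avg.sum_inv_sq (k * n)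
          have h8 : (0 : ℝ) ≤ 1 / (((k * n : ℕ) : ℝ) + 1) := by positivity
          have h9 : gg 0 = 1 := by
            unfold gg
            norm_num
          have h10 : ∑ m ∈ range (k * n + 1), gg m =
              ∑ m ∈ range (k * n + 1), (1 : ℝ) / ((m : ℝ) + 1) ^ 2 := rfl
          rw [h9, h10]
          linarith
  linarith

end Pool.Agent.Helper14.NS5
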